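import Mathlib

set_option autoImplicit false

namespace Pool.Agent.Results.MP_30555c_co.Example

/-- Chips lost by `v` when each vertex `u` fires `f u` times; `m u v` is the edge multiplicity. -/
def lap {V : Type} [Fintype V] (m : V → V → ℕ) (f : V → ℤ) (v : V) : ℤ :=
  ∑ u, (m v u : ℤ) * (f v - f u)

/-- For every `v`, the divisor `D - 1_v` is equivalent to an effective divisor. -/
def PosRank {V : Type} [Fintype V] [DecidableEq V] (m : V → V → ℕ) (D : V → ℤ) : Prop :=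
  ∀ v, ∃ f : V → ℤ, ∀ w, 0 ≤ D w - (if w = v then 1 else 0) - lap m f w

/-- Divisorial gonality. -/
noncomputable def gon {V : Type} [Fintype V] [DecidableEq V] (m : V → V → ℕ) : ℕ :=
  sInf {d : ℕ | ∃ D : V → ℤ, (∀ v, 0 ≤ D v) ∧ ∑ v, D v = d ∧ PosRank m D}

/-- Cartesian product, keeping multiplicities. -/
def box {V W : Type} [DecidableEq V] [DecidableEq W] (m : V → V → ℕ) (m' : W → W → ℕ)
    (x y : V × W) : ℕ :=
  (if x.2 = y.2 then m x.1 y.1 else 0) + (if x.1 = y.1 then m' x.2 y.2 else 0)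

/-- A simple graph as a multigraph. -/
def mult {V : Type} (T : SimpleGraph V) [DecidableRel T.Adj] (u v : V) : ℕ :=
  if T.Adj u v then 1 else 0

/-- A connected loopless multigraph. -/
def IsGraph {V : Type} (m : V → V → ℕ) : Prop :=
  (∀ u v, m u v = m v u) ∧ (∀ v, m v v = 0) ∧
    (SimpleGraph.fromRel (fun u v => 0 < m u v)).Connected

def T0 : SimpleGraph (Fin 3) where
  Adj u v := u.val + 1 = v.val ∨ v.val + 1 = u.val
  symm := ⟨fun _ _ h => h.symm⟩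
  loopless := ⟨by decide⟩

instance : DecidableRel T0.Adj := fun u v =>
  inferInstanceAs (Decidable (u.val + 1 = v.val ∨ v.val + 1 = u.val))

def H0 : Fin 6 → Fin 6 → ℕ :=
  ![![0, 1, 0, 1, 1, 1], ![1, 0, 2, 0, 0, 0], ![0, 2, 0, 0, 0, 0], ![1, 0, 0, 0, 0, 0], ![1, 0, 0, 0, 0, 0], ![1, 0, 0, 0, 0, 0]]

def D0 : Fin 3 → Fin 6 → ℤ := ![![1, 0, 0, 0, 0, 0], ![1, 1, 1, 0, 0, 0], ![1, 0, 0, 0, 0, 0]]

def F0 : Fin 3 → Fin 6 → Fin 3 → Fin 6 → ℤ :=
  ![![![![0, 0, 0, 0, 0, 0], ![0, 0, 0, 0, 0, 0], ![0, 0, 0, 0, 0, 0]],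
      ![![1, 0, 0, 1, 1, 1], ![1, 1, 1, 1, 1, 1], ![1, 1, 1, 1, 1, 1]],
      ![![1, 0, 0, 1, 1, 1], ![1, 1, 1, 1, 1, 1], ![1, 1, 1, 1, 1, 1]],
      ![![1, 1, 1, 0, 1, 1], ![1, 1, 1, 0, 1, 1], ![1, 1, 1, 0, 1, 1]],
      ![![1, 1, 1, 1, 0, 1], ![1, 1, 1, 1, 0, 1], ![1, 1, 1, 1, 0, 1]],
      ![![1, 1, 1, 1, 1, 0], ![1, 1, 1, 1, 1, 0], ![1, 1, 1, 1, 1, 0]]],
    ![![![0, 0, 0, 0, 0, 0], ![0, 0, 0, 0, 0, 0], ![0, 0, 0, 0, 0, 0]],
      ![![0, 0, 0, 0, 0, 0], ![0, 0, 0, 0, 0, 0], ![0, 0, 0, 0, 0, 0]],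
      ![![0, 0, 0, 0, 0, 0], ![0, 0, 0, 0, 0, 0], ![0, 0, 0, 0, 0, 0]],
      ![![1, 1, 1, 0, 1, 1], ![1, 1, 1, 0, 1, 1], ![1, 1, 1, 0, 1, 1]],
      ![![1, 1, 1, 1, 0, 1], ![1, 1, 1, 1, 0, 1], ![1, 1, 1, 1, 0, 1]],
      ![![1, 1, 1, 1, 1, 0], ![1, 1, 1, 1, 1, 0], ![1, 1, 1, 1, 1, 0]]],
    ![![![0, 0, 0, 0, 0, 0], ![0, 0, 0, 0, 0, 0], ![0, 0, 0, 0, 0, 0]],
      ![![1, 1, 1, 1, 1, 1], ![1, 1, 1, 1, 1, 1], ![1, 0, 0, 1, 1, 1]],
      ![![1, 1, 1, 1, 1, 1], ![1, 1, 1, 1, 1, 1], ![1, 0, 0, 1, 1, 1]],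
      ![![1, 1, 1, 0, 1, 1], ![1, 1, 1, 0, 1, 1], ![1, 1, 1, 0, 1, 1]],
      ![![1, 1, 1, 1, 0, 1], ![1, 1, 1, 1, 0, 1], ![1, 1, 1, 1, 0, 1]],
      ![![1, 1, 1, 1, 1, 0], ![1, 1, 1, 1, 1, 0], ![1, 1, 1, 1, 1, 0]]]]

lemma tree : T0.IsTree := by
  rw [SimpleGraph.isTree_iff_connected_and_card]
  constructor
  · have h : ∀ v, T0.Reachable 1 v := by
      intro v
      fin_cases v
      · exact SimpleGraph.Adj.reachable (by decide)
      · rfl
      · exact SimpleGraph.Adj.reachable (by decide)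
    exact ⟨fun u v => (h u).symm.trans (h v)⟩
  · rw [Nat.card_eq_fintype_card, Nat.card_eq_fintype_card]
    decide +kernel

lemma graphH : IsGraph H0 := by
  refine ⟨by decide +kernel, by decide +kernel, ?_⟩
  have a : ∀ u v : Fin 6, u ≠ v → 0 < H0 u v →
      (SimpleGraph.fromRel (fun u v => 0 < H0 u v)).Reachable u v := fun u v h1 h2 =>
    SimpleGraph.Adj.reachable ((SimpleGraph.fromRel_adj _ _ _).mpr ⟨h1, Or.inl h2⟩)
  have h : ∀ v, (SimpleGraph.fromRel (fun u v => 0 < H0 u v)).Reachable 0 v := by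
    intro v
    fin_cases v
    · rfl
    · exact a 0 1 (by decide) (by decide)
    · exact (a 0 1 (by decide) (by decide)).trans (a 1 2 (by decide) (by decide))
    · exact a 0 3 (by decide) (by decide)
    · exact a 0 4 (by decide) (by decide)
    · exact a 0 5 (by decide) (by decide)
  exact ⟨fun u v => (h u).symm.trans (h v)⟩

lemma gonH : 2 ≤ gon H0 := by
  have hne : {d : ℕ | ∃ D : Fin 6 → ℤ, (∀ v, 0 ≤ D v) ∧ ∑ v, D v = d ∧ PosRank H0 D}.Nonempty := by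
    refine ⟨6, fun _ => 1, by simp, by simp, fun v => ⟨fun _ => 0, fun w => ?_⟩⟩
    simp only [lap, sub_self, mul_zero, Finset.sum_const_zero]
    split_ifs <;> norm_num
  obtain ⟨D, h1, h2, h3⟩ := Nat.sInf_mem hne
  by_contra hlt
  have h4 : ∑ v, D v ≤ 1 := by
    rw [h2]
    unfold gon at hlt
    omega
  obtain ⟨f, hf⟩ := h3 1
  obtain ⟨g, hg⟩ := h3 2
  have := hf 0; have := hf 1; have := hf 2; have := hf 3; have := hf 4; have := hf 5
  have := hg 0; have := hg 1; have := hg 2; have := hg 3; have := hg 4; have := hg 5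
  have := h1 0; have := h1 1; have := h1 2; have := h1 3; have := h1 4; have := h1 5
  clear hf hg h1 h2 h3 hlt hne
  simp [lap, Fin.sum_univ_six, H0] at *
  omega

lemma gonP : gon (box (mult T0) H0) ≤ 5 := by
  apply Nat.sInf_le
  refine ⟨fun x => D0 x.1 x.2, by decide +kernel, by decide +kernel, fun v =>
    ⟨fun x => F0 v.1 v.2 x.1 x.2, ?_⟩⟩
  revert v
  decide +kernel

theorem result :
    ∃ (V W : Type) (_ : Fintype V) (_ : DecidableEq V) (_ : Fintype W) (_ : DecidableEq W)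
      (T : SimpleGraph V) (_ : DecidableRel T.Adj) (H : W → W → ℕ), T.IsTree ∧ IsGraph H ∧
      gon (box (mult T) H) < min (Fintype.card W) (Fintype.card V * gon H) := by
  refine ⟨Fin 3, Fin 6, inferInstance, inferInstance, inferInstance, inferInstance, T0,
    inferInstance, H0, tree, graphH, ?_⟩
  have h1 := gonH
  have h2 := gonP
  simp only [Fintype.card_fin]
  omega

end Pool.Agent.Results.MP_30555c_co.Example
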